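import Mathlib
import Pool.Agent.T9h83.RAY.JU3
set_option autoImplicit false

/-!
# The restriction conjecture for functions with jointly rough variables, in every dimension

Let `P ≥ 1`, `m ≥ 0`, `k ∈ {0, 1}`, `n = 2P + m + k` and `d = n + 1`, and write the points of `ℝ^n`
as `z = (z_1, …, z_P, s_1, …, s_m, σ)` with `z_p ∈ ℂ = ℝ²`, `s_j ∈ ℝ` and `σ ∈ ℝ^k`. Let
`c_1, …, c_P` be points of the plane and let `r_p = |z_p - c_p|` and `θ_p = arg (z_p - c_p)` be the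
polar coordinates in the `p`-th plane. Let `q > 2d/(d-1)`, the full conjectured range. For functions

  `f(z) = h(θ, σ) ∏_p g_p(r_p, θ, σ) ∏_j b_j(s_j, θ, σ)`, `θ = (θ_1, …, θ_P)`,

where `g_p(·, θ, σ)` and `b_j(·, θ, σ)` are bounded by one and of variation at most one in their
first variable, the integral of `|E f|^q` over `ℝ^d` is at most a constant times the integral of
`|h|^q`. Nothing is assumed on the dependence on all the variables `(θ_1, …, θ_P, σ)` jointly,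
beyond measurability. The same holds for averages of such functions, where the averaging
probability measure may itself depend on `(θ, σ)`.
-/

namespace Pool.Agent.Results.MP_b7167f_an.JointlyRoughVariables

open MeasureTheory Set Complex ProbabilityTheory
open scoped ENNReal NNReal

/-- The space `ℝ^n = ℂ^P × ℝ^m × ℝ^k`, `n = 2P + m + k`. -/
abbrev Sp (P m k : ℕ) := ((Fin P → ℂ) × (Fin m → ℝ)) × (Fin k → ℝ)

/-- The cube `[-1,1]^n` in `ℝ^n = ℂ^P × ℝ^m × ℝ^k`. -/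
def cube (P m k : ℕ) : Set (Sp P m k) :=
  {z | (∀ p, |(z.1.1 p).re| ≤ 1 ∧ |(z.1.1 p).im| ≤ 1) ∧ (∀ j, |z.1.2 j| ≤ 1) ∧ ∀ i, |z.2 i| ≤ 1}

/-- The extension operator of the truncated paraboloid in `ℝ^(n+1)`, `n = 2P + m + k`:
`Ef(x,t) = ∫_{[-1,1]^n} f(z) exp(2πi(z·x + |z|² t)) dz`, where `z·x` is the real inner product and
`|z|` the Euclidean norm of `ℝ^n = ℂ^P × ℝ^m × ℝ^k`. -/
noncomputable def ext {P m k : ℕ} (f : Sp P m k → ℂ) (y : Sp P m k × ℝ) : ℂ :=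
  ∫ z in cube P m k, f z * cexp (2 * Real.pi * I *
    ((∑ p, ((z.1.1 p).re * (y.1.1.1 p).re + (z.1.1 p).im * (y.1.1.1 p).im) +
        ∑ j, z.1.2 j * y.1.1.2 j + ∑ i, z.2 i * y.1.2 i +
      (∑ p, ((z.1.1 p).re ^ 2 + (z.1.1 p).im ^ 2) + ∑ j, z.1.2 j ^ 2 + ∑ i, z.2 i ^ 2) *
        y.2 : ℝ) : ℂ))

/-- The set of the `r > 0` for which `c + r exp(iθ)` lies in the square `[-1,1]^2`. -/
def seg (c : ℂ) (θ : ℝ) : Set ℝ :=
  {r | 0 < r ∧ |(c + r * cexp (θ * I)).re| ≤ 1 ∧ |(c + r * cexp (θ * I)).im| ≤ 1}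

/-- The angles `θ_p = arg (z_p - c_p) ∈ (-π, π]`. -/
noncomputable def ang {P : ℕ} (c z : Fin P → ℂ) (p : Fin P) : ℝ := arg (z p - c p)

/-- The box `(-π, π)^P × [-1,1]^k` of the rough variables `(θ, σ)`. -/
def box (P k : ℕ) : Set ((Fin P → ℝ) × (Fin k → ℝ)) :=
  (univ.pi fun _ => Ioo (-Real.pi) Real.pi) ×ˢ univ.pi fun _ => Icc (-1 : ℝ) 1

open Pool.Agent.T9h83.RAY

lemma phZ_eq {P m : ℕ} (x z : (Fin P → ℂ) × (Fin m → ℝ)) (t : ℝ) :
    phZ t x z = cexp (2 * Real.pi * I *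
    ((∑ p, ((z.1 p).re * (x.1 p).re + (z.1 p).im * (x.1 p).im) + ∑ j, z.2 j * x.2 j +
      (∑ p, ((z.1 p).re ^ 2 + (z.1 p).im ^ 2) + ∑ j, z.2 j ^ 2) * t : ℝ) : ℂ)) := by
  unfold phZ ph
  rw [← Complex.exp_sum, ← Complex.exp_sum, ← Complex.exp_add]
  congr 1
  rw [← Finset.mul_sum, ← Finset.mul_sum, ← mul_add]
  congr 1
  rw [← ofReal_sum, ← ofReal_sum, ← ofReal_add]
  congr 1
  have e1 : ∀ w : ℂ, ‖w‖ ^ 2 = w.re ^ 2 + w.im ^ 2 := by
    intro w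
    rw [← normSq_eq_norm_sq, normSq_apply]; ring
  simp only [e1, ofReal_re, ofReal_im, Finset.sum_add_distrib, ← Finset.mul_sum]
  have e2 : ∀ (a b : Fin P → ℝ), ∑ i, a i * b i = ∑ i, b i * a i := fun a b =>
    Finset.sum_congr rfl fun i _ => mul_comm _ _
  have e3 : ∀ (a b : Fin m → ℝ), ∑ i, a i * b i = ∑ i, b i * a i := fun a b =>
    Finset.sum_congr rfl fun i _ => mul_comm _ _
  rw [e2 (fun i => (x.1 i).re) (fun i => (z.1 i).re), e2 (fun i => (x.1 i).im) (fun i => (z.1 i).im),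
    e3 (fun i => x.2 i) (fun i => z.2 i)]
  simp
  ring

lemma phk_eq {k : ℕ} (x z : Fin k → ℝ) (t : ℝ) :
    phk k ((t, x), z) = cexp (2 * Real.pi * I *
      ((∑ i, z i * x i + (∑ i, z i ^ 2) * t : ℝ) : ℂ)) := by
  unfold phk
  simp only [ph_real]
  rw [← Complex.exp_sum]
  congr 1
  rw [← Finset.mul_sum, ← ofReal_sum]
  congr 2
  rw [Finset.sum_add_distrib, ← Finset.mul_sum, mul_comm t]
  congr 1
  exact Finset.sum_congr rfl fun i _ => mul_comm _ _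

lemma phB_eq {P m k : ℕ} (x z : Sp P m k) (t : ℝ) :
    phB (phk k) t x z = cexp (2 * Real.pi * I *
    ((∑ p, ((z.1.1 p).re * (x.1.1 p).re + (z.1.1 p).im * (x.1.1 p).im) +
        ∑ j, z.1.2 j * x.1.2 j + ∑ i, z.2 i * x.2 i +
      (∑ p, ((z.1.1 p).re ^ 2 + (z.1.1 p).im ^ 2) + ∑ j, z.1.2 j ^ 2 + ∑ i, z.2 i ^ 2) *
        t : ℝ) : ℂ)) := by
  unfold phB
  rw [phZ_eq, phk_eq, ← Complex.exp_add]
  congr 1
  push_cast
  ring

lemma cube_eq (P m k : ℕ) : cube P m k = QZ P m ×ˢ (univ.pi fun _ : Fin k => Icc (-1 : ℝ) 1) := by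
  ext z
  constructor
  · rintro ⟨h1, h2, h3⟩
    exact ⟨⟨h1, h2⟩, fun i _ => abs_le.1 (h3 i)⟩
  · rintro ⟨⟨h1, h2⟩, h3⟩
    exact ⟨h1, h2, fun i => abs_le.2 (h3 i (mem_univ i))⟩

lemma muk_eq (k : ℕ) : (volume : Measure (Fin k → ℝ)).restrict
    (univ.pi fun _ => Icc (-1 : ℝ) 1) = muk k := by
  unfold muk
  rw [volume_pi, Measure.restrict_pi_pi]

lemma ciP_eq (P : ℕ) : (volume : Measure (Fin P → ℝ)).restrict
    (univ.pi fun _ => Ioo (-Real.pi) Real.pi) = ciP P := by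
  unfold ciP cir
  rw [volume_pi, Measure.restrict_pi_pi]

lemma box_eq (P k : ℕ) : (volume : Measure ((Fin P → ℝ) × (Fin k → ℝ))).restrict (box P k) =
    (ciP P).prod (muk k) := by
  unfold box
  rw [Measure.volume_eq_prod, ← Measure.prod_restrict, ciP_eq, muk_eq]

lemma cube_restrict (P m k : ℕ) : (volume : Measure (Sp P m k)).restrict (cube P m k) =
    ((volume : Measure (ZZ P m)).prod (muk k)).restrict (QB (Fin k → ℝ) P m) := by
  have h1 : QB (Fin k → ℝ) P m = QZ P m ×ˢ univ := by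
    ext z
    simp [QB]
  rw [cube_eq, h1, Measure.volume_eq_prod, ← Measure.prod_restrict, muk_eq,
    ← Measure.prod_restrict, Measure.restrict_univ]

lemma ext_eq {P m k : ℕ} (f : Sp P m k → ℂ) (x : Sp P m k) (t : ℝ) :
    ext f (x, t) = EB (muk k) (phk k) ((QB (Fin k → ℝ) P m).indicator f) t x := by
  unfold ext EB
  rw [cube_restrict, ← integral_indicator (QB_meas P m)]
  congr 1
  funext z
  by_cases hz : z ∈ QB (Fin k → ℝ) P m
  · rw [indicator_of_mem hz, indicator_of_mem hz, phB_eq]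
  · rw [indicator_of_notMem hz, indicator_of_notMem hz, zero_mul]

/-- **The restriction conjecture for functions with jointly rough variables**, in every dimension
`d = 2P + m + k + 1` and in the full range `q > 2d/(d-1)`. -/
theorem result (P m k : ℕ) (hP : 0 < P) (hk : k ≤ 1) (q : ℝ)
    (hq : 2 * ((2 * P + m + k + 1 : ℕ) : ℝ) / ((2 * P + m + k : ℕ) : ℝ) < q) (R : ℝ) :
    ∃ C : ℝ≥0, ∀ c : Fin P → ℂ, (∀ p, ‖c p‖ ≤ R) →
      ∀ (Λ : Type) [MeasurableSpace Λ] [StandardBorelSpace Λ]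
        (κ : Kernel ((Fin P → ℝ) × (Fin k → ℝ)) Λ) [IsMarkovKernel κ]
        (h : Λ × (Fin P → ℝ) × (Fin k → ℝ) → ℂ)
        (g : Fin P → Λ × ℝ × (Fin P → ℝ) × (Fin k → ℝ) → ℂ)
        (b : Fin m → Λ × ℝ × (Fin P → ℝ) × (Fin k → ℝ) → ℂ),
        Measurable h → (∀ p, Measurable (g p)) → (∀ j, Measurable (b j)) →
        (∀ p l θ σ, ∀ r ∈ seg (c p) (θ p), ‖g p (l, r, θ, σ)‖ ≤ 1) →
        (∀ p l θ σ, eVariationOn (fun r => g p (l, r, θ, σ)) (seg (c p) (θ p)) ≤ 1) →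
        (∀ j l θ σ, ∀ s ∈ Icc (-1 : ℝ) 1, ‖b j (l, s, θ, σ)‖ ≤ 1) →
        (∀ j l θ σ, eVariationOn (fun s => b j (l, s, θ, σ)) (Icc (-1 : ℝ) 1) ≤ 1) →
        ∫⁻ y, ‖ext (P := P) (m := m) (k := k) (fun z =>
            ∫ l, h (l, ang c z.1.1, z.2) *
              ((∏ p, g p (l, ‖z.1.1 p - c p‖, ang c z.1.1, z.2)) *
                ∏ j, b j (l, z.1.2 j, ang c z.1.1, z.2)) ∂(κ (ang c z.1.1, z.2))) y‖ₑ ^ q ≤
          C * ∫⁻ v in box P k, ∫⁻ l, ‖h (l, v)‖ₑ ^ q ∂(κ v) := by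
  have hn : 2 ≤ 2 * P + m + k := by omega
  have hn0 : (0 : ℝ) < ((2 * P + m + k : ℕ) : ℝ) := by
    have : (2 : ℝ) ≤ ((2 * P + m + k : ℕ) : ℝ) := by exact_mod_cast hn
    linarith
  have hq' : 2 + 2 / ((2 * P + m + k : ℕ) : ℝ) < q := by
    refine lt_of_eq_of_lt ?_ hq
    push_cast at hn0 ⊢
    field_simp
  obtain ⟨C, hC, hfin⟩ := jointU_final (P := P) (m := m) hk hn hq' (R := |R|) (abs_nonneg R)
  refine ⟨C.toNNReal, ?_⟩
  intro c hc Λ _ _ κ _ h g b hm hg hb hg1 hgv hb1 hbv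
  rw [ENNReal.coe_toNNReal hC]
  have hRB : ∀ p l, RBY (c p) (fun v : (Fin P → ℝ) × (Fin k → ℝ) => v.1 p)
      (fun v : ℝ × ((Fin P → ℝ) × (Fin k → ℝ)) => g p (l, v)) := by
    intro p l
    refine ⟨?_, fun y r hr hQ => hg1 p l y.1 y.2 r ⟨hr, hQ⟩, fun y => hgv p l y.1 y.2⟩
    have h1 := (hg p).comp (measurable_prodMk_left (x := l) :
      Measurable fun v : ℝ × ((Fin P → ℝ) × (Fin k → ℝ)) => (l, v))
    exact h1
  have hLB : ∀ j l, LBY (fun v : ℝ × ((Fin P → ℝ) × (Fin k → ℝ)) => b j (l, v)) := by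
    intro j l
    refine ⟨?_, fun y s hs => hb1 j l y.1 y.2 s (abs_le.1 hs), fun y => hbv j l y.1 y.2⟩
    have h1 := (hb j).comp (measurable_prodMk_left (x := l) :
      Measurable fun v : ℝ × ((Fin P → ℝ) × (Fin k → ℝ)) => (l, v))
    exact h1
  obtain ⟨hAm, h1⟩ := hfin c (fun p => (hc p).trans (le_abs_self R)) κ h g b hm hg hb hRB hLB
  have hf : (fun z : Sp P m k => ∫ l, h (l, ang c z.1.1, z.2) *
      ((∏ p, g p (l, ‖z.1.1 p - c p‖, ang c z.1.1, z.2)) *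
        ∏ j, b j (l, z.1.2 j, ang c z.1.1, z.2)) ∂(κ (ang c z.1.1, z.2))) =
      AvK κ c h g b := rfl
  rw [hf, box_eq]
  refine le_trans (le_of_eq ?_) h1
  have hme : Measurable fun y : Sp P m k × ℝ => ‖ext (AvK κ c h g b) y‖ₑ ^ q := by
    have h2 : (fun y : Sp P m k × ℝ => ‖ext (AvK κ c h g b) y‖ₑ ^ q) = fun y =>
        ‖EB (muk k) (phk k) ((QB (Fin k → ℝ) P m).indicator (AvK κ c h g b)) y.2 y.1‖ₑ ^ q := by
      funext y
      rw [← ext_eq]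
    rw [h2]
    have h3 : Measurable fun r : (Sp P m k × ℝ) × (ZZ P m × (Fin k → ℝ)) =>
        (QB (Fin k → ℝ) P m).indicator (AvK κ c h g b) r.2 :=
      (hAm.indicator (QB_meas P m)).comp measurable_snd
    exact (EB_meas (μ0 := muk k) (phk_meas k) (Y := Sp P m k × ℝ) h3
      (t := fun y => y.2) measurable_snd (x := fun y => y.1) measurable_fst).enorm.pow_const q
  rw [Measure.volume_eq_prod, lintegral_prod_symm _ hme.aemeasurable]
  simp_rw [ext_eq]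
  rfl

end Pool.Agent.Results.MP_b7167f_an.JointlyRoughVariables
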