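import Mathlib
import Pool.Agent.T9h8.MS.Wrap2
import Pool.Agent.T9h8.MS.FinB
set_option autoImplicit false

/-!
# The restriction conjecture for products with moving factors

Let `d = m + 2 ≥ 3`, write `ξ = (ξ_0, ξ_1, ..., ξ_m) ∈ [-1,1]^{d-1}` and let
`f(ξ) = ∏_{j=1}^m f_j(ξ_0, ξ_j) exp(2πi c_j(ξ_0) ξ_j)`, where each `f_j` is measurable, bounded by
`1` and, for each `ξ_0`, of total variation at most `1` in `ξ_j`, and where the `c_j` are unbounded
real functions: in `E f` the contribution of the slice `ξ_0 = u` is moved by `c_j(u)` in the `j`-th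
space variable.

1. If `[-1,1]` is the union of `K` disjoint measurable sets on each of which every `c_j` is monotone
   or antitone, then `‖E f‖_q ≤ C(d, q) K` in the full range `q > 2d/(d-1)`.
2. If the `c_j` are arbitrary measurable functions, then `‖E f‖_q ≤ C(d, q)` for
   `q > 2 + 4/(2d-3)`.
-/

namespace Pool.Agent.Results.MP_b7167f_an.MonotoneShifts

open MeasureTheory Set Complex
open scoped ENNReal NNReal

/-- The extension operator of the truncated paraboloid in `ℝ^(n+1)`: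
`Ef(x,t) = ∫_{[-1,1]^n} f(ξ) exp(2πi(ξ·x + |ξ|² t)) dξ`. -/
noncomputable def ext {n : ℕ} (f : (Fin n → ℝ) → ℂ) (y : (Fin n → ℝ) × ℝ) : ℂ :=
  ∫ ξ in Icc (fun _ : Fin n => (-1 : ℝ)) (fun _ => 1),
    f ξ * cexp (2 * Real.pi * I * ((∑ j, ξ j * y.1 j + (∑ j, ξ j ^ 2) * y.2 : ℝ) : ℂ))

/-- The product of the moved factors:
`ξ ↦ ∏_j f_j(ξ_0, ξ_j) exp(2πi c_j(ξ_0) ξ_j)`. -/
noncomputable def moved {m : ℕ} (c : Fin m → ℝ → ℝ) (f : Fin m → ℝ × ℝ → ℂ)
    (ξ : Fin (m + 1) → ℝ) : ℂ :=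
  ∏ j : Fin m, f j (ξ 0, ξ j.succ) * cexp (2 * Real.pi * I * ((c j (ξ 0) * ξ j.succ : ℝ) : ℂ))

/-- The factors: measurable, bounded by one on the square `[-1,1]²`, and for each `u` in `[-1,1]`
of total variation at most one in `v` on `[-1,1]`. -/
structure Factors {m : ℕ} (f : Fin m → ℝ × ℝ → ℂ) : Prop where
  /-- the factors are measurable -/
  meas : ∀ j, Measurable (f j)
  /-- the factors are bounded by one -/
  bound : ∀ j, ∀ ξ ∈ Icc (-1 : ℝ) 1 ×ˢ Icc (-1 : ℝ) 1, ‖f j ξ‖ ≤ 1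
  /-- the total variation in the second variable is at most one -/
  var : ∀ j, ∀ u ∈ Icc (-1 : ℝ) 1, eVariationOn (fun v => f j (u, v)) (Icc (-1 : ℝ) 1) ≤ 1

open Pool.Agent.T9h8.MS

lemma ext_eq {m : ℕ} (c : Fin m → ℝ → ℝ) (f : Fin m → ℝ × ℝ → ℂ)
    (y : (Fin (m + 1) → ℝ) × ℝ) : ext (moved c f) y =
      Pool.Agent.H728R3.SR.ext (fun ξ => ∏ j : Fin m, gx f c (fun _ _ => 0) j (ξ 0, ξ j.succ)) y := by
  unfold ext Pool.Agent.H728R3.SR.ext
  apply setIntegral_congr_fun measurableSet_Icc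
  intro ξ hξ
  simp only
  congr 1
  unfold moved
  apply Finset.prod_congr rfl
  intro j _
  unfold gx ee
  rw [indicator_of_mem (show (ξ 0, ξ j.succ) ∈ Icc (-1 : ℝ) 1 ×ˢ Icc (-1 : ℝ) 1 from
    ⟨⟨hξ.1 0, hξ.2 0⟩, ⟨hξ.1 j.succ, hξ.2 j.succ⟩⟩)]
  simp only [mul_zero, add_zero]
  rw [mul_comm (ξ j.succ)]

/-- **The restriction conjecture for products with moving factors.** -/
theorem result (m : ℕ) (hm : 1 ≤ m) (q : ℝ) :
    (2 * ((m : ℝ) + 2) / (m + 1) < q →
      ∃ C : ℝ≥0, ∀ (K : ℕ) (p : ℝ → Fin K) (c : Fin m → ℝ → ℝ), Measurable p →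
        (∀ j, Measurable (c j)) →
        (∀ j l, MonotoneOn (c j) {u | u ∈ Icc (-1 : ℝ) 1 ∧ p u = l} ∨
          AntitoneOn (c j) {u | u ∈ Icc (-1 : ℝ) 1 ∧ p u = l}) →
        ∀ f : Fin m → ℝ × ℝ → ℂ, Factors f →
          ∫⁻ y, ‖ext (moved c f) y‖ₑ ^ q ≤ C * (K : ℝ≥0∞) ^ q) ∧
    (2 + 4 / (2 * (m : ℝ) + 1) < q →
      ∃ C : ℝ≥0, ∀ c : Fin m → ℝ → ℝ, (∀ j, Measurable (c j)) →
        ∀ f : Fin m → ℝ × ℝ → ℂ, Factors f →
          ∫⁻ y, ‖ext (moved c f) y‖ₑ ^ q ≤ C) := by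
  have hm0 : (1 : ℝ) ≤ m := by exact_mod_cast hm
  refine ⟨?_, ?_⟩
  · intro hq
    have hq1 : 2 + 2 / (m + 1) < q := by
      refine lt_of_le_of_lt (le_of_eq ?_) hq
      field_simp
      ring
    have hq2 : 0 < q - 2 := by
      have : 0 < 2 / ((m : ℝ) + 1) := by positivity
      linarith
    set δ : ℝ := (1 + m) - 2 / (q - 2) with hδ
    have hδ0 : 0 < δ := by
      have h1 : 2 / ((m : ℝ) + 1) < q - 2 := by linarith
      rw [div_lt_iff₀ (by linarith)] at h1
      rw [hδ, sub_pos, div_lt_iff₀ hq2]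
      linarith
    set ε : ℝ := min (1 / 2) (δ / (2 * m)) with hε
    have hε0 : 0 < ε := lt_min (by norm_num) (by positivity)
    have hε1 : ε < 1 := lt_of_le_of_lt (min_le_left _ _) (by norm_num)
    have hmε : m * ε ≤ δ / 2 := by
      calc m * ε ≤ m * (δ / (2 * m)) := mul_le_mul_of_nonneg_left (min_le_right _ _) (by linarith)
        _ = δ / 2 := by field_simp
    have hlt : 2 + 2 / (1 + m * (1 - ε)) < q := by
      have h1 : 2 / (q - 2) < 1 + m * (1 - ε) := by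
        have : 1 + m * (1 - ε) = δ + 2 / (q - 2) - m * ε := by rw [hδ]; ring
        linarith
      have h2 : 0 < 1 + m * (1 - ε) := lt_trans (by positivity) h1
      rw [div_lt_iff₀ hq2] at h1
      have h3 : 2 / (1 + m * (1 - ε)) < q - 2 := by
        rw [div_lt_iff₀ h2]
        linarith
      linarith
    obtain ⟨C, hC⟩ := wrap (γ := 1 - ε) hm (by linarith) (α := 1 - ε) (by linarith) hlt
      (48 * 2 ^ m : ℝ).toNNReal
    refine ⟨C, ?_⟩
    intro K p c hp hc hmono f hf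
    simp only [ext_eq]
    refine hC c (fun _ _ => 0) hc (fun _ => measurable_const) K p hp ?_ f hf.meas hf.bound hf.var
    intro l n
    refine HM_mono m hm hε0 hε1 c _ inter_subset_left ?_ n
    intro j
    exact hmono j l
  · intro hq
    have hα : (0 : ℝ) < 1 - 1 / (2 * m) := by
      have : 1 / (2 * (m : ℝ)) ≤ 1 / 2 := by
        refine div_le_div_of_nonneg_left (by norm_num) (by norm_num) (by linarith)
      linarith
    have hlt : 2 + 2 / (1 + m * (1 - 1 / (2 * m))) < q := by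
      refine lt_of_le_of_lt (le_of_eq ?_) hq
      have h1 : 1 + m * (1 - 1 / (2 * (m : ℝ))) = (2 * m + 1) / 2 := by
        field_simp
        ring
      rw [h1]
      field_simp
      ring
    obtain ⟨C, hC⟩ := wrap (γ := 1 / 2) hm (by norm_num) hα hlt (48 * 2 ^ m : ℝ).toNNReal
    refine ⟨C, ?_⟩
    intro c hc f hf
    simp only [ext_eq]
    have h := hC c (fun _ _ => 0) hc (fun _ => measurable_const) 1 (fun _ => 0)
      measurable_const ?_ f hf.meas hf.bound hf.var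
    · rw [Nat.cast_one, ENNReal.one_rpow, mul_one] at h
      exact h
    intro l n
    exact HM_gen m hm c _ inter_subset_left n

end Pool.Agent.Results.MP_b7167f_an.MonotoneShifts
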