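import Mathlib
import Pool.Agent.T9h8.RS.Core
set_option autoImplicit false

/-!
# The restriction conjecture for the paraboloid under random translations of slabs

Let `k, m ≥ 1`, `d = k + m + 1`, and write `ξ = (u,v)`, `u ∈ [-1,1]^k`, `v ∈ [-1,1]^m`. Cut the cube
into the slabs `{(u,v) : ⌊M u⌋ = j}`, `j ∈ ℤ^k`, and translate the contribution of the `j`-th slab to
`E f` by a random vector `ω_j` in the `m` last space variables, that is multiply `f` by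
`exp(2πi ω_j·v)` on the slab. For every bounded `f`, every slab width `1/M ≤ N^(κ-1)` and four-wise
independent `ω_j` whose laws have densities at most `A^(-m)`, `A ≥ N^(1-κ)`, the average of
`‖E f_ω‖_{L^q(B_N)}^q` is at most `C ‖f‖_∞^q`, with `C` and `κ > 0` depending on `k`, `m`, `q` only,
for `q > 2d/(d-1)` and `q > 2 + 4/(4k+m)`; the second condition is implied by the first if
`d - 1 ≤ 3k`, for instance if `k = 1` and `d = 3` or `d = 4`.
-/

namespace Pool.Agent.Results.MP_b7167f_an.RandomShifts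

open MeasureTheory ProbabilityTheory Set Complex
open scoped ENNReal NNReal

/-- The extension operator of the truncated paraboloid in `ℝ^(k+m+1)` in the coordinates
`ξ = (u,v)`: `Ef(x,y,t) = ∫_{[-1,1]^k × [-1,1]^m} f(u,v) exp(2πi(u·x + v·y + (|u|²+|v|²) t))`. -/
noncomputable def ext {k m : ℕ} (f : (Fin k → ℝ) × (Fin m → ℝ) → ℂ)
    (p : (Fin k → ℝ) × (Fin m → ℝ) × ℝ) : ℂ :=
  ∫ ξ in Icc (-1 : (Fin k → ℝ) × (Fin m → ℝ)) 1, f ξ *
    cexp (2 * Real.pi * I * ((∑ i, ξ.1 i * p.1 i + ∑ i, ξ.2 i * p.2.1 i +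
      (∑ i, ξ.1 i ^ 2 + ∑ i, ξ.2 i ^ 2) * p.2.2 : ℝ) : ℂ))

/-- The function `f` with the contribution of the slab `{⌊M u⌋ = j}` translated by `w j`:
`f_w(u,v) = f(u,v) exp(2πi w_⌊Mu⌋·v)`. -/
noncomputable def shifted {k m : ℕ} (M : ℝ) (f : (Fin k → ℝ) × (Fin m → ℝ) → ℂ)
    (w : (Fin k → ℤ) → (Fin m → ℝ)) (ξ : (Fin k → ℝ) × (Fin m → ℝ)) : ℂ :=
  f ξ * cexp (2 * Real.pi * I * ((∑ i, w (fun l => ⌊M * ξ.1 l⌋) i * ξ.2 i : ℝ) : ℂ))

/-- The cube of the points `(x,y,t)` of space-time whose coordinates are at most `N` in absolute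
value. -/
def box (k m : ℕ) (N : ℝ) : Set ((Fin k → ℝ) × (Fin m → ℝ) × ℝ) :=
  {p | (∀ i, |p.1 i| ≤ N) ∧ (∀ i, |p.2.1 i| ≤ N) ∧ |p.2.2| ≤ N}

open Pool.Agent.T9h8.RS

lemma em_eq {d : ℕ} (y : Fin d → ℝ) (t : ℝ) (v : Fin d → ℝ) :
    Pool.Agent.W771.MD.em y t v = cexp (2 * Real.pi * I * ((∑ i, v i * y i + (∑ i, v i ^ 2) * t : ℝ) : ℂ)) := by
  unfold Pool.Agent.W771.MD.em Pool.Agent.W771.MD.qe
  rw [← Complex.exp_sum]
  congr 1
  rw [← Finset.mul_sum, ← Complex.ofReal_sum, Finset.sum_add_distrib, ← Finset.sum_mul]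

lemma ext_eq {k m : ℕ} (f : (Fin k → ℝ) × (Fin m → ℝ) → ℂ)
    (p : (Fin k → ℝ) × (Fin m → ℝ) × ℝ) : ext f p = FF (Cb k) f p := by
  have h1 : Icc (-1 : (Fin k → ℝ) × (Fin m → ℝ)) 1 = Cb k ×ˢ Cb m := Icc_prod_eq _ _
  unfold ext FF
  rw [h1]
  congr 1
  ext ξ
  rw [em_eq, em_eq, ← Complex.exp_add]
  congr 2
  push_cast
  ring

lemma shifted_eq {k m : ℕ} (M : ℝ) (f : (Fin k → ℝ) × (Fin m → ℝ) → ℂ)
    (w : (Fin k → ℤ) → (Fin m → ℝ)) : shifted M f w = sh M f w := by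
  ext ξ
  unfold shifted sh
  rw [em_eq]
  congr 4
  rw [mul_zero, add_zero]
  refine Finset.sum_congr rfl fun i _ => ?_
  rw [mul_comm]
  rfl

lemma box_eq (k m : ℕ) (N : ℝ) : box k m N = Bx k m N := by
  ext p
  unfold box Bx
  simp only [mem_ofPred_eq, mem_prod, mem_Icc, Pi.le_def, abs_le, forall_and]

/-- four-wise independence in the form used in the proof -/
lemma four_of {ι Ω E : Type*} [MeasurableSpace Ω] [MeasurableSpace E] (P : Measure Ω)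
    (X : ι → Ω → E) (hX : ∀ j, Measurable (X j))
    (h : ∀ s : Finset ι, s.card ≤ 4 → iIndepFun (fun j : s => X j) P) : Four X P := by
  classical
  intro a b c i ha hb hc
  set s : Finset ι := {a, b, c, i} with hs
  have hcard : s.card ≤ 4 := Finset.card_le_four
  have ma : a ∈ s := by simp [hs]
  have mb : b ∈ s := by simp [hs]
  have mc : c ∈ s := by simp [hs]
  have mi : i ∈ s := by simp [hs]
  set S : Finset s := {⟨a, ma⟩, ⟨b, mb⟩, ⟨c, mc⟩} with hS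
  set T : Finset s := {⟨i, mi⟩} with hT
  have hST : Disjoint S T := by
    rw [hT, Finset.disjoint_singleton_right, hS]
    simp only [Finset.mem_insert, Finset.mem_singleton, Subtype.mk.injEq, not_or]
    exact ⟨ha, hb, hc⟩
  have h1 := (h s hcard).indepFun_finset S T hST fun j => hX j
  have sa : (⟨a, ma⟩ : s) ∈ S := by simp [hS]
  have sb : (⟨b, mb⟩ : s) ∈ S := by simp [hS]
  have sc : (⟨c, mc⟩ : s) ∈ S := by simp [hS]
  have si : (⟨i, mi⟩ : s) ∈ T := by simp [hT]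
  have h2 : Measurable fun z : S → E => (z ⟨⟨a, ma⟩, sa⟩, z ⟨⟨b, mb⟩, sb⟩, z ⟨⟨c, mc⟩, sc⟩) :=
    (measurable_pi_apply _).prodMk ((measurable_pi_apply _).prodMk (measurable_pi_apply _))
  have h3 : Measurable fun z : T → E => z ⟨⟨i, mi⟩, si⟩ := measurable_pi_apply _
  exact h1.comp h2 h3

/-- **The restriction conjecture under random translations of slabs.** -/
theorem result (k m : ℕ) (hk : 1 ≤ k) (hm : 1 ≤ m) (q : ℝ)
    (hq : 2 * ((k : ℝ) + m + 1) / (k + m) < q) (hq' : 2 + 4 / (4 * (k : ℝ) + m) < q) :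
    ∃ κ : ℝ, 0 < κ ∧ ∃ C : ℝ≥0, ∀ N M A : ℝ, 1 ≤ N → N ^ (1 - κ) ≤ M → N ^ (1 - κ) ≤ A →
      ∀ (Ω : Type) [MeasurableSpace Ω] (P : Measure Ω) [IsProbabilityMeasure P]
        (ω : (Fin k → ℤ) → Ω → (Fin m → ℝ)), (∀ j, Measurable (ω j)) →
        (∀ s : Finset (Fin k → ℤ), s.card ≤ 4 → iIndepFun (fun j : s => ω j) P) →
        (∀ j (S : Set (Fin m → ℝ)), MeasurableSet S →
          P (ω j ⁻¹' S) ≤ ENNReal.ofReal (A⁻¹) ^ m * volume S) →
        ∀ f : (Fin k → ℝ) × (Fin m → ℝ) → ℂ, Measurable f → (∀ ξ, ‖f ξ‖ ≤ 1) →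
          ∫⁻ a, (∫⁻ p in box k m N, ‖ext (shifted M f fun j => ω j a) p‖ₑ ^ q) ∂P ≤ C := by
  have hk0 : (1 : ℝ) ≤ k := by exact_mod_cast hk
  have hm0 : (1 : ℝ) ≤ m := by exact_mod_cast hm
  have hkm : (0 : ℝ) < k + m := by linarith
  have hq1 : 2 + 2 / ((k : ℝ) + m) < q := by
    refine lt_of_le_of_lt (le_of_eq ?_) hq
    field_simp
  set r : ℝ := min q 4 with hr
  have hr4 : r ≤ 4 := min_le_right _ _
  have hr1 : 2 + 2 / ((k : ℝ) + m) < r := by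
    refine lt_min hq1 ?_
    have : 2 / ((k : ℝ) + m) ≤ 1 := by rw [div_le_one hkm]; linarith
    linarith
  have hr2 : 2 + 4 / (4 * (k : ℝ) + m) < r := by
    refine lt_min hq' ?_
    have : 4 / (4 * (k : ℝ) + m) ≤ 1 := by rw [div_le_one (by positivity)]; linarith
    linarith
  have hr0 : 0 < r := by
    have : 0 < 2 / ((k : ℝ) + m) := by positivity
    linarith
  have hrq : r ≤ q := min_le_left _ _
  obtain ⟨κ, hκ0, hκ1, C, hC, hmain⟩ := core hk hm r hr1 hr2 hr4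
  refine ⟨κ, hκ0, ((2 : ℝ≥0) ^ (k + m)) ^ (q - r) * C.toNNReal, ?_⟩
  intro N M A hN hM hA Ω _ P _ ω hω hind hlaw f hf hf1
  have hN0 : 0 < N := by linarith
  have hNk : 0 < N ^ (1 - κ) := by positivity
  have hA0 : 0 < A := lt_of_lt_of_le hNk hA
  have hM0 : 0 < M := lt_of_lt_of_le hNk hM
  set ρ : ℝ≥0 := (A⁻¹).toNNReal ^ m with hρ
  have hρ1 : (ρ : ℝ) ≤ N ^ (-(1 - κ) * m) := by
    rw [hρ, NNReal.coe_pow, Real.coe_toNNReal _ (by positivity), Real.rpow_mul hN0.le,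
      Real.rpow_natCast, Real.rpow_neg hN0.le]
    exact pow_le_pow_left₀ (by positivity) (inv_anti₀ hNk hA) m
  have hρ2 : ∀ j, P.map (ω j) ≤ ρ • (volume : Measure (Fin m → ℝ)) := by
    intro j
    refine Measure.le_iff.2 fun S hS => ?_
    rw [Measure.map_apply (hω j) hS]
    refine (hlaw j S hS).trans (le_of_eq ?_)
    rw [Measure.smul_apply, hρ]
    rfl
  have h1 := hmain N hN M hM ρ hρ1 Ω P ω hω (four_of P ω hω hind) hρ2 f hf hf1
  rw [box_eq]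
  have hpt : ∀ a p, ‖ext (shifted M f fun j => ω j a) p‖ₑ ^ q ≤
      (2 ^ (k + m) : ℝ≥0∞) ^ (q - r) * ‖FF (Cb k) (sh M f fun j => ω j a) p‖ₑ ^ r := by
    intro a p
    rw [ext_eq, shifted_eq]
    have h2 := FF_bd (Cb k) Cb_meas (Subset.refl _) _ (sh_bd M f hf1 fun j => ω j a) p
    have h3 : volume.real (Cb k) = 2 ^ k := by
      unfold Measure.real
      rw [Cb_vol]
      simp
    rw [h3] at h2
    have h4 : ‖FF (Cb k) (sh M f fun j => ω j a) p‖ₑ ≤ 2 ^ (k + m) := by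
      rw [← ofReal_norm]
      refine (ENNReal.ofReal_le_ofReal h2).trans (le_of_eq ?_)
      rw [← pow_add, add_comm m k, ENNReal.ofReal_pow (by norm_num), ENNReal.ofReal_ofNat]
    calc ‖FF (Cb k) (sh M f fun j => ω j a) p‖ₑ ^ q
        = ‖FF (Cb k) (sh M f fun j => ω j a) p‖ₑ ^ (q - r) *
          ‖FF (Cb k) (sh M f fun j => ω j a) p‖ₑ ^ r := by
          rw [← ENNReal.rpow_add_of_nonneg _ _ (by linarith) hr0.le]
          congr 1
          ring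
      _ ≤ _ := mul_le_mul' (ENNReal.rpow_le_rpow h4 (by linarith)) le_rfl
  have hne : (2 ^ (k + m) : ℝ≥0∞) ^ (q - r) ≠ ∞ :=
    ENNReal.rpow_ne_top_of_nonneg (by linarith) (ENNReal.pow_ne_top (by norm_num))
  calc ∫⁻ a, (∫⁻ p in Bx k m N, ‖ext (shifted M f fun j => ω j a) p‖ₑ ^ q) ∂P
      ≤ ∫⁻ a, (2 ^ (k + m) : ℝ≥0∞) ^ (q - r) *
          (∫⁻ p in Bx k m N, ‖FF (Cb k) (sh M f fun j => ω j a) p‖ₑ ^ r) ∂P := by
        refine lintegral_mono fun a => ?_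
        rw [← lintegral_const_mul' _ _ hne]
        exact lintegral_mono fun p => hpt a p
    _ = (2 ^ (k + m) : ℝ≥0∞) ^ (q - r) *
          ∫⁻ a, (∫⁻ p in Bx k m N, ‖FF (Cb k) (sh M f fun j => ω j a) p‖ₑ ^ r) ∂P :=
        lintegral_const_mul' _ _ hne
    _ ≤ (2 ^ (k + m) : ℝ≥0∞) ^ (q - r) * ENNReal.ofReal C := mul_le_mul' le_rfl h1
    _ = _ := by
        rw [ENNReal.coe_mul, ENNReal.coe_rpow_of_nonneg _ (by linarith : 0 ≤ q - r),
          ENNReal.coe_pow]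
        rfl

end Pool.Agent.Results.MP_b7167f_an.RandomShifts
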